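import Pool.Agent.Lib.MP_4e5fcd_ag.HZ.Defs
import Pool.Agent.Lib.MP_4e5fcd_ag.LF.X4
import Pool.Agent.Lib.MP_4e5fcd_ag.CN.P1
import Pool.Agent.Lib.MP_4e5fcd_ag.CN.Sp

/-!
# HZ-P: fibres with a non-zero Euler characteristic from the projective complement

If `χ (P^(N-1) - V(F)) ≠ 0` then some fibre `{f = y_f for all f ∈ F}`, `y ≠ 0`, has `χ ≠ 0`.
-/

open MvPolynomial

namespace MotMono
namespace HZ

open LF

/-- two constructible sets in bijection by a constructible correspondence -/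
theorem chi_corr {χ : K0 →+* ℤ} (hχ : IsEulerCharF χ) {σ τ : Type} [Finite σ] [Finite τ]
    {Z : Set (σ ⊕ τ → ℂ)} (hZ : Constr Z) {E : Set (σ → ℂ)} (hE : Constr E) {F : Set (τ → ℂ)}
    (hF : Constr F) (h1 : ∀ x ∈ E, ∃ y, ∀ y', Sum.elim x y' ∈ Z ↔ y' = y)
    (h2 : ∀ y ∈ F, ∃ x, ∀ x', Sum.elim x' y ∈ Z ↔ x' = x)
    (h3 : ∀ x y, Sum.elim x y ∈ Z → x ∈ E ∧ y ∈ F) : χ (cls E) = χ (cls F) := by
  have e1 : χ (cls Z) = χ (cls F) := by
    have h := chi_fib_const hχ hZ hF 1 (fun y hy => by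
      obtain ⟨x, hx⟩ := h2 y hy
      have e : {x' : σ → ℂ | Sum.elim x' y ∈ Z} = {x} := by
        ext x'
        rw [Set.mem_ofPred_eq, hx, Set.mem_singleton_iff]
      rw [e, cls_singleton, map_one]) (fun y hy x hx => hy (h3 x y hx).2)
    rwa [one_mul] at h
  set Z' : Set (τ ⊕ σ → ℂ) := {y | (fun i => y (Equiv.sumComm σ τ i)) ∈ Z} with hZ'
  have hZc : Constr Z' := hZ.comp (Equiv.sumComm σ τ)
  have e2 : cls Z = cls Z' := cls_iso hZ hZc (RegIso.reindex (Equiv.sumComm σ τ) Z)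
  have hmem : ∀ (x : σ → ℂ) (y : τ → ℂ), Sum.elim y x ∈ Z' ↔ Sum.elim x y ∈ Z := by
    intro x y
    rw [hZ', Set.mem_ofPred_eq]
    have e : (fun i => Sum.elim y x (Equiv.sumComm σ τ i)) = Sum.elim x y := by
      funext i
      rcases i with i | i <;> rfl
    rw [e]
  have e3 : χ (cls Z') = χ (cls E) := by
    have h := chi_fib_const hχ hZc hE 1 (fun x hx => by
      obtain ⟨y, hy⟩ := h1 x hx
      have e : {y' : τ → ℂ | Sum.elim y' x ∈ Z'} = {y} := by
        ext y'
        rw [Set.mem_ofPred_eq, hmem, hy, Set.mem_singleton_iff]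
      rw [e, cls_singleton, map_one]) (fun x hx y hy => hx (h3 x y ((hmem x y).1 hy)).1)
    rwa [one_mul] at h
  rw [← e3, ← e2, e1]

theorem constr_projCompl {N : ℕ} (F : Set (MvPolynomial (Fin N) ℂ)) : Constr (projCompl F) := by
  have h1 : Constr (⋃ i : Fin N, ({x : Fin N → ℂ | eval x (X i) = eval x (C 1)} ∩
      ⋂ j : {j : Fin N // j < i}, {x : Fin N → ℂ | eval x (X j.1) = eval x (C 0)})) :=
    constr_iUnion fun i => (constr_eq _ _).inter (constr_iInter fun j => constr_eq _ _)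
  have h2 := (CN.constr_zeroLocus F).compl
  have e : projCompl F = (⋃ i : Fin N, ({x : Fin N → ℂ | eval x (X i) = eval x (C 1)} ∩
      ⋂ j : {j : Fin N // j < i}, {x : Fin N → ℂ | eval x (X j.1) = eval x (C 0)})) ∩
      {x | ∀ f ∈ F, eval x f = 0}ᶜ := by
    ext x
    simp only [projCompl, Set.mem_ofPred_eq, Set.mem_inter_iff, Set.mem_iUnion, Set.mem_iInter,
      Set.mem_compl_iff, eval_X, eval_C, Subtype.forall, not_forall, exists_prop]
  rw [e]
  exact h1.inter h2

/-- constant Euler characteristic of the fibres over the first factor -/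
theorem chi_fib_left {χ : K0 →+* ℤ} (hχ : IsEulerCharF χ) {σ τ : Type} [Finite σ] [Finite τ]
    {Z : Set (σ ⊕ τ → ℂ)} (hZ : Constr Z) {E : Set (σ → ℂ)} (hE : Constr E) (n : ℤ)
    (h1 : ∀ x ∈ E, χ (cls {y : τ → ℂ | Sum.elim x y ∈ Z}) = n)
    (h2 : ∀ x, x ∉ E → ∀ y : τ → ℂ, Sum.elim x y ∉ Z) : χ (cls Z) = n * χ (cls E) := by
  set Z' : Set (τ ⊕ σ → ℂ) := {y | (fun i => y (Equiv.sumComm σ τ i)) ∈ Z} with hZ'
  have hZc : Constr Z' := hZ.comp (Equiv.sumComm σ τ)
  have e2 : cls Z = cls Z' := cls_iso hZ hZc (RegIso.reindex (Equiv.sumComm σ τ) Z)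
  have hmem : ∀ (x : σ → ℂ) (y : τ → ℂ), Sum.elim y x ∈ Z' ↔ Sum.elim x y ∈ Z := by
    intro x y
    rw [hZ', Set.mem_ofPred_eq]
    have e : (fun i => Sum.elim y x (Equiv.sumComm σ τ i)) = Sum.elim x y := by
      funext i
      rcases i with i | i <;> rfl
    rw [e]
  rw [e2]
  exact chi_fib_const hχ hZc hE n (fun x hx => by
      have e : {y' : τ → ℂ | Sum.elim y' x ∈ Z'} = {y' : τ → ℂ | Sum.elim x y' ∈ Z} := by
        ext x'
        rw [Set.mem_ofPred_eq, hmem, Set.mem_ofPred_eq]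
      rw [e, h1 x hx]) (fun x hx y hy => h2 x hx y ((hmem x y).1 hy))

/-- homogeneity -/
theorem eval_scale {N d : ℕ} {f : MvPolynomial (Fin N) ℂ} (hf : f.IsHomogeneous d) (c : ℂ)
    (x : Fin N → ℂ) : eval (fun i => c * x i) f = c ^ d * eval x f := by
  rw [eval_eq', eval_eq', Finset.mul_sum]
  refine Finset.sum_congr rfl fun m hm => ?_
  have h1 : Finsupp.weight 1 m = d := hf (mem_support_iff.1 hm)
  have h3 : ∑ i, m i = d := by
    rw [← h1, Finsupp.weight_apply,
      Finsupp.sum_fintype m (fun i c => c • (1 : Fin N → ℕ) i) (fun i => zero_smul ℕ _)]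
    simp
  have h2 : ∏ i, (c * x i) ^ m i = c ^ d * ∏ i, x i ^ m i := by
    rw [← h3, ← Finset.prod_pow_eq_pow_sum, ← Finset.prod_mul_distrib]
    exact Finset.prod_congr rfl fun i _ => mul_pow _ _ _
  rw [h2]
  ring

/-- finitely many of the forms span the others -/
theorem exists_basis {N d : ℕ} (F : Set (MvPolynomial (Fin N) ℂ))
    (hF : ∀ f ∈ F, f.IsHomogeneous d) :
    ∃ (r : ℕ) (f : Fin r → MvPolynomial (Fin N) ℂ), (∀ i, f i ∈ F) ∧
      ∀ g ∈ F, g ∈ Submodule.span ℂ (Set.range f) := by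
  classical
  have hfg : (Submodule.span ℂ F).FG := by
    set S : Finset (MvPolynomial (Fin N) ℂ) :=
      ((Finset.univ : Finset (Fin N)).finsuppAntidiag d).image fun m => monomial m (1 : ℂ) with hS
    have hle : Submodule.span ℂ F ≤ Submodule.span ℂ (S : Set (MvPolynomial (Fin N) ℂ)) := by
      rw [Submodule.span_le]
      intro f hf
      rw [SetLike.mem_coe, f.as_sum]
      refine Submodule.sum_mem _ fun m hm => ?_
      have h1 : Finsupp.weight 1 m = d := hF f hf (mem_support_iff.1 hm)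
      have h3 : ∑ i, m i = d := by
        rw [← h1, Finsupp.weight_apply,
          Finsupp.sum_fintype m (fun i c => c • (1 : Fin N → ℕ) i) (fun i => zero_smul ℕ _)]
        simp
      have h4 : monomial m (coeff m f) = coeff m f • monomial m (1 : ℂ) := by
        rw [smul_monomial, smul_eq_mul, mul_one]
      rw [h4]
      refine Submodule.smul_mem _ _ (Submodule.subset_span ?_)
      rw [hS, Finset.coe_image]
      refine ⟨m, ?_, rfl⟩
      rw [Finset.mem_coe, Finset.mem_finsuppAntidiag]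
      exact ⟨h3, Finset.subset_univ _⟩
    have hn : IsNoetherian ℂ (Submodule.span ℂ (S : Set (MvPolynomial (Fin N) ℂ))) :=
      isNoetherian_span_of_finite ℂ S.finite_toSet
    have := isNoetherian_of_le hle
    exact (Submodule.fg_top _).1 (IsNoetherian.noetherian ⊤)
  obtain ⟨s', hs', hspan⟩ := (Submodule.fg_span_iff_fg_span_finset_subset F).1 hfg
  refine ⟨s'.card, fun i => (s'.equivFin.symm i : MvPolynomial (Fin N) ℂ),
    fun i => hs' (s'.equivFin.symm i).2, fun g hg => ?_⟩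
  have e : Set.range (fun i : Fin s'.card => (s'.equivFin.symm i : MvPolynomial (Fin N) ℂ)) =
      (s' : Set (MvPolynomial (Fin N) ℂ)) := by
    ext x
    constructor
    · rintro ⟨i, rfl⟩
      exact (s'.equivFin.symm i).2
    · intro hx
      exact ⟨s'.equivFin ⟨x, hx⟩, by simp⟩
  rw [e, ← hspan]
  exact Submodule.subset_span hg

/-- normalised vectors: the first non-zero coordinate is `1` -/
def Nrm {N : ℕ} (x : Fin N → ℂ) : Prop := ∃ i, x i = 1 ∧ ∀ j < i, x j = 0

theorem Nrm.exists_scale {N : ℕ} {x : Fin N → ℂ} (hx : x ≠ 0) :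
    ∃ c : ℂ, c ≠ 0 ∧ Nrm (fun i => c * x i) := by
  classical
  have h1 : ∃ i, x i ≠ 0 := by
    by_contra h
    push Not at h
    exact hx (funext h)
  have h2 : (Finset.univ.filter fun i => x i ≠ 0).Nonempty := by
    obtain ⟨i, hi⟩ := h1
    exact ⟨i, by simpa using hi⟩
  set i₀ := (Finset.univ.filter fun i => x i ≠ 0).min' h2 with hi₀
  have h3 : x i₀ ≠ 0 := by
    have := Finset.min'_mem _ h2
    rw [← hi₀] at this
    simpa using this
  refine ⟨(x i₀)⁻¹, inv_ne_zero h3, i₀, inv_mul_cancel₀ h3, fun j hj => ?_⟩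
  have h4 : x j = 0 := by
    by_contra h
    exact absurd (Finset.min'_le _ j (by simpa using h)) (not_le.2 hj)
  show (x i₀)⁻¹ * x j = 0
  rw [h4, mul_zero]

/-- two proportional normalised vectors are equal, and the factor is `1` -/
theorem Nrm.unique {N : ℕ} {x y : Fin N → ℂ} (hx : Nrm x) (hy : Nrm y) {c : ℂ}
    (h : ∀ i, x i = c * y i) : c = 1 := by
  obtain ⟨i, hi, hi'⟩ := hx
  obtain ⟨j, hj, hj'⟩ := hy
  rcases lt_trichotomy i j with hij | hij | hij
  · have h1 := h i
    rw [hi, hj' i hij, mul_zero] at h1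
    exact absurd h1 one_ne_zero
  · subst hij
    have h1 := h i
    rw [hi, hj, mul_one] at h1
    exact h1.symm
  · have h1 := h j
    rw [hj, hi' j hij, mul_one] at h1
    have h2 := h i
    rw [hi, ← h1, zero_mul] at h2
    exact absurd h2 one_ne_zero

theorem Nrm.ne_zero {N : ℕ} {x : Fin N → ℂ} (hx : Nrm x) : ∃ i, x i = 1 := by
  obtain ⟨i, hi, -⟩ := hx
  exact ⟨i, hi⟩

theorem constr_nrm {N : ℕ} : Constr {x : Fin N → ℂ | Nrm x} := by
  have h1 : Constr (⋃ i : Fin N, ({x : Fin N → ℂ | eval x (X i) = eval x (C 1)} ∩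
      ⋂ j : {j : Fin N // j < i}, {x : Fin N → ℂ | eval x (X j.1) = eval x (C 0)})) :=
    constr_iUnion fun i => (constr_eq _ _).inter (constr_iInter fun j => constr_eq _ _)
  have e : {x : Fin N → ℂ | Nrm x} =
      (⋃ i : Fin N, ({x : Fin N → ℂ | eval x (X i) = eval x (C 1)} ∩
      ⋂ j : {j : Fin N // j < i}, {x : Fin N → ℂ | eval x (X j.1) = eval x (C 0)})) := by
    ext x
    simp only [Nrm, Set.mem_ofPred_eq, Set.mem_inter_iff, Set.mem_iUnion, Set.mem_iInter,
      eval_X, eval_C, Subtype.forall]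
  rw [e]
  exact h1

section Main

variable {N r d : ℕ} (f : Fin r → MvPolynomial (Fin N) ℂ)

/-- the points of the projective complement which map to `η` -/
def Qset (η : Fin r → ℂ) : Set (Fin N → ℂ) :=
  {x | Nrm x ∧ (∃ i, eval x (f i) ≠ 0) ∧ ∀ i j, eval x (f i) * η j = eval x (f j) * η i}

theorem constr_Qset (η : Fin r → ℂ) : Constr (Qset f η) := by
  have h2 : Constr (⋃ i : Fin r, {x : Fin N → ℂ | eval x (f i) ≠ 0}) :=
    constr_iUnion fun i => constr_ne _
  have h3 : Constr (⋂ i : Fin r, ⋂ j : Fin r,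
      {x : Fin N → ℂ | eval x (f i * C (η j)) = eval x (f j * C (η i))}) :=
    constr_iInter fun i => constr_iInter fun j => constr_eq _ _
  have e : Qset f η = {x : Fin N → ℂ | Nrm x} ∩ ((⋃ i : Fin r, {x : Fin N → ℂ | eval x (f i) ≠ 0}) ∩
      (⋂ i : Fin r, ⋂ j : Fin r,
      {x : Fin N → ℂ | eval x (f i * C (η j)) = eval x (f j * C (η i))})) := by
    ext x
    simp only [Qset, Set.mem_ofPred_eq, Set.mem_inter_iff, Set.mem_iUnion, Set.mem_iInter,
      eval_mul, eval_C]
  rw [e]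
  exact constr_nrm.inter (h2.inter h3)

theorem Qset_eval {η : Fin r → ℂ} {i₀ : Fin r} (hi₀ : η i₀ = 1) {x : Fin N → ℂ}
    (hx : x ∈ Qset f η) : (∀ i, eval x (f i) = eval x (f i₀) * η i) ∧ eval x (f i₀) ≠ 0 := by
  have h1 : ∀ i, eval x (f i) = eval x (f i₀) * η i := by
    intro i
    have := hx.2.2 i i₀
    rwa [hi₀, mul_one] at this
  refine ⟨h1, fun h => ?_⟩
  obtain ⟨i, hi⟩ := hx.2.1
  exact hi (by rw [h1 i, h, zero_mul])

theorem chi_Qset {χ : K0 →+* ℤ} (hχ : IsEulerCharF χ) (hd : 0 < d)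
    (hf : ∀ i, (f i).IsHomogeneous d) {η : Fin r → ℂ} {i₀ : Fin r} (hi₀ : η i₀ = 1)
    (h : χ (cls {x : Fin N → ℂ | ∀ i, eval x (f i) = η i}) = 0) : χ (cls (Qset f η)) = 0 := by
  have hQ := constr_Qset f η
  have h1 := (isEulerChar_of_F hχ).kummer (Qset f η) hQ (f i₀)
    (fun x hx => (Qset_eval f hi₀ hx).2) d hd
  have hK : Constr (kummerCover (Qset f η) (f i₀) d) := by
    have h1 := hQ.comp (Sum.inl : Fin N → Fin N ⊕ Unit)
    have h2 := constr_eq (X (Sum.inr ()) ^ d : MvPolynomial (Fin N ⊕ Unit) ℂ)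
      (rename Sum.inl (f i₀) : MvPolynomial (Fin N ⊕ Unit) ℂ)
    have h3 := h1.inter h2
    have e : kummerCover (Qset f η) (f i₀) d =
        {x : Fin N ⊕ Unit → ℂ | (fun j => x (Sum.inl j)) ∈ Qset f η} ∩
        {x | eval x (X (Sum.inr ()) ^ d : MvPolynomial (Fin N ⊕ Unit) ℂ) =
          eval x (rename Sum.inl (f i₀) : MvPolynomial (Fin N ⊕ Unit) ℂ)} := by
      ext z
      simp only [kummerCover, Set.mem_ofPred_eq, Set.mem_inter_iff, map_pow, eval_X, eval_rename]
      rfl
    rw [e]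
    exact h3
  have hΦ : Constr {x : Fin N → ℂ | ∀ i, eval x (f i) = η i} := by
    have h2 : Constr (⋂ i : Fin r, {x : Fin N → ℂ | eval x (f i) = eval x (C (η i))}) :=
      constr_iInter fun i => constr_eq _ _
    have e : {x : Fin N → ℂ | ∀ i, eval x (f i) = η i} =
        (⋂ i : Fin r, {x : Fin N → ℂ | eval x (f i) = eval x (C (η i))}) := by
      ext x
      simp only [Set.mem_ofPred_eq, Set.mem_iInter, eval_C]
    rw [e]
    exact h2
  set K := kummerCover (Qset f η) (f i₀) d with hKdef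
  have hZ : Constr ({z : (Fin N ⊕ Unit) ⊕ Fin N → ℂ | (fun i => z (Sum.inl i)) ∈ K} ∩
      ⋂ i : Fin N, {z : (Fin N ⊕ Unit) ⊕ Fin N → ℂ |
        eval z (X (Sum.inl (Sum.inl i))) = eval z (X (Sum.inl (Sum.inr ())) * X (Sum.inr i))}) :=
    (hK.comp (Sum.inl : Fin N ⊕ Unit → (Fin N ⊕ Unit) ⊕ Fin N)).inter
      (constr_iInter fun i => constr_eq _ _)
  have hmem : ∀ (w : Fin N ⊕ Unit → ℂ) (x' : Fin N → ℂ),
      Sum.elim w x' ∈ ({z : (Fin N ⊕ Unit) ⊕ Fin N → ℂ | (fun i => z (Sum.inl i)) ∈ K} ∩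
      ⋂ i : Fin N, {z : (Fin N ⊕ Unit) ⊕ Fin N → ℂ |
        eval z (X (Sum.inl (Sum.inl i))) = eval z (X (Sum.inl (Sum.inr ())) * X (Sum.inr i))}) ↔
      w ∈ K ∧ ∀ i, w (Sum.inl i) = w (Sum.inr ()) * x' i := by
    intro w x'
    simp only [Set.mem_inter_iff, Set.mem_ofPred_eq, Set.mem_iInter, eval_X, eval_mul,
      Sum.elim_inl, Sum.elim_inr]
  have hKmem : ∀ w : Fin N ⊕ Unit → ℂ, w ∈ K ↔ (fun i => w (Sum.inl i)) ∈ Qset f η ∧
      w (Sum.inr ()) ^ d = eval (fun i => w (Sum.inl i)) (f i₀) := fun w => Iff.rfl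
  have hK0 : ∀ w ∈ K, w (Sum.inr ()) ≠ 0 := by
    intro w hw h0
    have h2 := ((hKmem w).1 hw).2
    rw [h0, zero_pow hd.ne'] at h2
    exact (Qset_eval f hi₀ ((hKmem w).1 hw).1).2 h2.symm
  have key : χ (cls K) = χ (cls {x : Fin N → ℂ | ∀ i, eval x (f i) = η i}) := by
    refine chi_corr hχ hZ hK hΦ ?_ ?_ ?_
    · intro w hw
      have h0 := hK0 w hw
      refine ⟨fun i => (w (Sum.inr ()))⁻¹ * w (Sum.inl i), fun x' => ?_⟩
      rw [hmem]
      constructor
      · rintro ⟨-, h2⟩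
        funext i
        rw [h2 i, inv_mul_cancel_left₀ h0]
      · rintro rfl
        exact ⟨hw, fun i => by rw [mul_inv_cancel_left₀ h0]⟩
    · intro x' hx'
      have hx0 : x' ≠ 0 := by
        rintro rfl
        have h2 := hx' i₀
        have h3 := eval_scale (hf i₀) 0 (0 : Fin N → ℂ)
        rw [zero_pow hd.ne', zero_mul] at h3
        have e : (fun i => (0 : ℂ) * (0 : Fin N → ℂ) i) = (0 : Fin N → ℂ) := by
          funext i
          simp
        rw [e] at h3
        rw [h3, hi₀] at h2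
        exact zero_ne_one h2
      obtain ⟨c, hc, hn⟩ := Nrm.exists_scale hx0
      have hev : ∀ i, eval (fun i => c * x' i) (f i) = c ^ d * η i := fun i => by
        rw [eval_scale (hf i), hx' i]
      refine ⟨Sum.elim (fun i => c * x' i) (fun _ => c), fun w => ?_⟩
      rw [hmem]
      constructor
      · rintro ⟨hw, h2⟩
        have h3 := ((hKmem w).1 hw).1.1
        have h4 : ∀ i, (fun i => w (Sum.inl i)) i = (w (Sum.inr ()) * c⁻¹) * (fun i => c * x' i) i := by
          intro i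
          show w (Sum.inl i) = _
          rw [h2 i, mul_assoc, inv_mul_cancel_left₀ hc]
        have h5 := Nrm.unique h3 hn h4
        have h6 : w (Sum.inr ()) = c := by
          field_simp at h5
          exact h5
        funext i
        rcases i with i | i
        · rw [h2 i, h6, Sum.elim_inl]
        · cases i
          rw [h6, Sum.elim_inr]
      · rintro rfl
        refine ⟨(hKmem _).2 ⟨⟨hn, ⟨i₀, ?_⟩, fun i j => ?_⟩, ?_⟩, fun i => rfl⟩
        · show eval (fun i => c * x' i) (f i₀) ≠ 0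
          rw [hev, hi₀, mul_one]
          exact pow_ne_zero _ hc
        · show eval (fun i => c * x' i) (f i) * η j = eval (fun i => c * x' i) (f j) * η i
          rw [hev, hev]
          ring
        · show c ^ d = eval (fun i => c * x' i) (f i₀)
          rw [hev, hi₀, mul_one]
    · intro w x' hz
      rw [hmem] at hz
      obtain ⟨hw, h2⟩ := hz
      refine ⟨hw, fun i => ?_⟩
      have h0 := hK0 w hw
      have h3 := (hKmem w).1 hw
      have e : (fun i => w (Sum.inl i)) = fun i => w (Sum.inr ()) * x' i := funext h2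
      have h4 := (Qset_eval f hi₀ h3.1).1 i
      rw [← h3.2] at h4
      rw [e, eval_scale (hf i)] at h4
      exact mul_left_cancel₀ (pow_ne_zero d h0) h4
  rw [key, h] at h1
  rcases mul_eq_zero.1 h1.symm with h2 | h2
  · exact absurd (Nat.cast_eq_zero.1 h2) hd.ne'
  · exact h2

end Main

theorem exists_fibre_of_proj {χ : K0 →+* ℤ} (hχ : IsEulerCharF χ) {N d : ℕ} (hd : 0 < d)
    (F : Set (MvPolynomial (Fin N) ℂ)) (hF : ∀ f ∈ F, f.IsHomogeneous d)
    (h : χ (cls (projCompl F)) ≠ 0) :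
    ∃ y : MvPolynomial (Fin N) ℂ → ℂ, (∃ f ∈ F, y f ≠ 0) ∧
      χ (cls {x | ∀ f ∈ F, eval x f = y f}) ≠ 0 := by
  by_contra hcon
  push Not at hcon
  obtain ⟨r, f, hfF, hfspan⟩ := exists_basis F hF
  have hcomb : ∀ x x₀ : Fin N → ℂ, ∀ c : ℂ, (∀ i, eval x (f i) = c * eval x₀ (f i)) → ∀ g ∈ F,
      eval x g = c * eval x₀ g := by
    intro x x₀ c hx g hg
    have h1 := hfspan g hg
    clear hg
    induction h1 using Submodule.span_induction with
    | mem y hy =>
      obtain ⟨i, rfl⟩ := hy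
      exact hx i
    | zero => rw [map_zero, map_zero, mul_zero]
    | add y z _ _ hy hz => rw [map_add, map_add, hy, hz, mul_add]
    | smul a y _ hy => rw [smul_eval, smul_eval, hy]; ring
  -- all fibres vanish
  have hfib : ∀ η : Fin r → ℂ, η ≠ 0 → χ (cls {x : Fin N → ℂ | ∀ i, eval x (f i) = η i}) = 0 := by
    intro η hη
    by_cases hne : ∃ x₀ : Fin N → ℂ, ∀ i, eval x₀ (f i) = η i
    · obtain ⟨x₀, hx₀⟩ := hne
      have h1 := hcon (fun g => eval x₀ g) (by
        by_contra h2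
        push Not at h2
        exact hη (funext fun i => by rw [← hx₀ i, h2 (f i) (hfF i)]; rfl))
      have e : {x : Fin N → ℂ | ∀ g ∈ F, eval x g = eval x₀ g} =
          {x : Fin N → ℂ | ∀ i, eval x (f i) = η i} := by
        ext x
        constructor
        · intro hx i
          rw [hx (f i) (hfF i), hx₀ i]
        · intro hx g hg
          have := hcomb x x₀ 1 (fun i => by rw [one_mul, hx i, hx₀ i]) g hg
          rwa [one_mul] at this
      rwa [e] at h1
    · have e : {x : Fin N → ℂ | ∀ i, eval x (f i) = η i} = ∅ := by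
        ext x
        simp only [Set.mem_ofPred_eq, Set.mem_empty_iff_false, iff_false]
        exact fun hx => hne ⟨x, hx⟩
      rw [e, cls_empty, map_zero]
  -- the incidence set
  set T : Set (Fin N ⊕ Fin r → ℂ) := {z | Nrm (fun i => z (Sum.inr i)) ∧
    Nrm (fun i => z (Sum.inl i)) ∧ (∃ i, eval (fun i => z (Sum.inl i)) (f i) ≠ 0) ∧
      ∀ i j, eval (fun i => z (Sum.inl i)) (f i) * z (Sum.inr j) =
        eval (fun i => z (Sum.inl i)) (f j) * z (Sum.inr i)} with hTdef
  have hTmem : ∀ (x : Fin N → ℂ) (η : Fin r → ℂ),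
      Sum.elim x η ∈ T ↔ Nrm η ∧ x ∈ Qset f η := fun x η => Iff.rfl
  have hT : Constr T := by
    have c1 := (constr_nrm (N := r)).comp (Sum.inr : Fin r → Fin N ⊕ Fin r)
    have c2 := (constr_nrm (N := N)).comp (Sum.inl : Fin N → Fin N ⊕ Fin r)
    have c3 : Constr (⋃ i : Fin r, {z : Fin N ⊕ Fin r → ℂ |
        eval z (rename Sum.inl (f i) : MvPolynomial (Fin N ⊕ Fin r) ℂ) ≠ 0}) :=
      constr_iUnion fun i => constr_ne _
    have c4 : Constr (⋂ i : Fin r, ⋂ j : Fin r, {z : Fin N ⊕ Fin r → ℂ |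
        eval z (rename Sum.inl (f i) * X (Sum.inr j) : MvPolynomial (Fin N ⊕ Fin r) ℂ) =
        eval z (rename Sum.inl (f j) * X (Sum.inr i) : MvPolynomial (Fin N ⊕ Fin r) ℂ)}) :=
      constr_iInter fun i => constr_iInter fun j => constr_eq _ _
    have c := c1.inter (c2.inter (c3.inter c4))
    refine (congrArg Constr ?_).mpr c
    ext z
    simp only [hTdef, Set.mem_ofPred_eq, Set.mem_inter_iff, Set.mem_iUnion, Set.mem_iInter,
      eval_mul, eval_X, eval_rename]
    rfl
  have h1 : χ (cls T) = 0 := by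
    have key := x4_fub2 hχ (σ₂ := Fin N) (τ := Fin r) hT constr_empty 1 0 (by
      intro η
      rw [zero_mul, add_zero, one_mul]
      by_cases hη : Nrm η
      · obtain ⟨i₀, hi₀⟩ := hη.ne_zero
        have e : {x : Fin N → ℂ | Sum.elim x η ∈ T} = Qset f η := by
          ext x
          rw [Set.mem_ofPred_eq, hTmem]
          exact ⟨fun h => h.2, fun h => ⟨hη, h⟩⟩
        rw [e]
        refine chi_Qset f hχ hd (fun i => hF _ (hfF i)) hi₀ (hfib η fun h0 => ?_)
        rw [h0] at hi₀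
        exact zero_ne_one hi₀
      · have e : {x : Fin N → ℂ | Sum.elim x η ∈ T} = ∅ := by
          ext x
          rw [Set.mem_ofPred_eq, hTmem]
          simp [hη]
        rw [e, cls_empty, map_zero])
    rwa [zero_mul, add_zero, one_mul] at key
  have h2 : χ (cls T) = 1 * χ (cls (projCompl F)) := by
    refine chi_fib_left hχ hT (constr_projCompl F) 1 ?_ ?_
    · intro x hx
      obtain ⟨hx1, g, hg, hgx⟩ := hx
      have hne : (fun i => eval x (f i)) ≠ 0 := by
        intro h0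
        have := hcomb x x 0 (fun i => by rw [zero_mul]; exact congrFun h0 i) g hg
        rw [zero_mul] at this
        exact hgx this
      obtain ⟨c, hc, hn⟩ := Nrm.exists_scale hne
      have e : {η : Fin r → ℂ | Sum.elim x η ∈ T} = {fun i => c * eval x (f i)} := by
        ext η
        rw [Set.mem_ofPred_eq, hTmem, Set.mem_singleton_iff]
        constructor
        · rintro ⟨hη, hQ⟩
          obtain ⟨i₀, hi₀⟩ := hη.ne_zero
          obtain ⟨h3, h4⟩ := Qset_eval f hi₀ hQ
          have h5 : ∀ i, η i = ((eval x (f i₀))⁻¹ * c⁻¹) * (fun i => c * eval x (f i)) i := by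
            intro i
            show η i = (eval x (f i₀))⁻¹ * c⁻¹ * (c * eval x (f i))
            rw [h3 i]
            field_simp
          have h6 := Nrm.unique hη hn h5
          funext i
          have h7 := h5 i
          rw [h6, one_mul] at h7
          exact h7
        · rintro rfl
          refine ⟨hn, hx1, ?_, fun i j => ?_⟩
          · by_contra h3
            push Not at h3
            exact hne (funext h3)
          · ring
      rw [e, cls_singleton, map_one]
    · intro x hx η hz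
      rw [hTmem] at hz
      obtain ⟨i, hi⟩ := hz.2.2.1
      exact hx ⟨hz.2.1, f i, hfF i, hi⟩
  rw [one_mul] at h2
  exact h (h2 ▸ h1)

end HZ
end MotMono
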