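import Pool.Agent.Lib.MP_4e5fcd_ag.HZ.P
import Pool.Agent.Lib.MP_4e5fcd_ag.HY.D1

/-!
# HZ-M: the theorem for the class `T'(s₀)`
-/

open MvPolynomial

namespace MotMono
namespace HZ

theorem eval_dh {N : ℕ} (i : Fin (N + 1)) (f : MvPolynomial (Fin (N + 1)) ℂ) (b : Fin N → ℂ) :
    eval b (dh i f) = eval (i.insertNth (1 : ℂ) b) f := by
  rw [dh, aeval_def, eval₂_eq', map_sum, eval_eq']
  refine Finset.sum_congr rfl fun m _ => ?_
  rw [map_mul, map_prod, algebraMap_eq, eval_C]
  congr 1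
  refine Finset.prod_congr rfl fun j _ => ?_
  rw [map_pow]
  congr 1
  refine Fin.succAboveCases i ?_ (fun k => ?_) j
  · simp
  · simp

/-- the dehomogenisation at the chart point of `c` -/
theorem eval_dh_div {N d : ℕ} {f : MvPolynomial (Fin (N + 1)) ℂ} (hf : f.IsHomogeneous d)
    (i : Fin (N + 1)) {c : Fin (N + 1) → ℂ} (hc : c i ≠ 0) :
    eval (fun j => c (i.succAbove j) / c i) (dh i f) = (c i)⁻¹ ^ d * eval c f := by
  rw [eval_dh, ← eval_scale hf]
  congr 2
  funext j
  refine Fin.succAboveCases i ?_ (fun k => ?_) j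
  · rw [Fin.insertNth_apply_same, inv_mul_cancel₀ hc]
  · rw [Fin.insertNth_apply_succAbove, div_eq_inv_mul]

/-- the germs of an ideal generated by forms of one degree in three variables -/
theorem tameAt_germ_three {χ : K0 →+* ℤ} (s₀ : ℚ) (F : Set (MvPolynomial (Fin 3) ℂ)) (d : ℕ)
    (hF : ∀ f ∈ F, f.IsHomogeneous d) (h0 : ∃ f ∈ F, f ≠ 0) (c : Fin 3 → ℂ) (hc : c ≠ 0)
    (hz : ∀ f ∈ F, eval c f = 0) : TameAt χ s₀ (germ (Ideal.span F) c) := by
  classical
  obtain ⟨i, hi⟩ : ∃ i, c i ≠ 0 := by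
    by_contra h
    push Not at h
    exact hc (funext h)
  refine TameAt.dehom s₀ F d hF i c hi (TameAt.two s₀ _ ?_ ?_)
  · obtain ⟨f, hfF, hf⟩ := h0
    intro hbot
    have hdh : dh i f ≠ 0 := by
      intro h
      apply hf
      have hX : f * X i = 0 := by
        refine MvPolynomial.funext fun x => ?_
        rw [map_mul, eval_X, map_zero]
        by_cases hx : x i = 0
        · rw [hx, mul_zero]
        · have h1 := eval_dh_div (hF f hfF) i hx
          rw [h, map_zero] at h1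
          rw [(mul_eq_zero.1 h1.symm).resolve_left (pow_ne_zero _ (inv_ne_zero hx)), zero_mul]
      exact (mul_eq_zero.1 hX).resolve_right (X_ne_zero i)
    have hmem : aeval (fun j => X j + C (c (i.succAbove j) / c i)) (dh i f) ∈
        germ (Ideal.span (dh i '' F)) fun j => c (i.succAbove j) / c i :=
      Ideal.subset_span ⟨dh i f, Ideal.subset_span ⟨f, hfF, rfl⟩, rfl⟩
    rw [hbot, Ideal.mem_bot] at hmem
    apply hdh
    refine MvPolynomial.funext fun x => ?_
    have h1 := congrArg (eval fun j => x j - c (i.succAbove j) / c i) hmem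
    rw [map_zero, ← MvPolynomial.coe_aeval_eq_eval, RingHom.coe_coe, ← AlgHom.comp_apply,
      MvPolynomial.comp_aeval] at h1
    rw [map_zero, ← h1, ← MvPolynomial.coe_aeval_eq_eval, RingHom.coe_coe]
    congr 1
    congr 1
    funext j
    simp
  · intro f hf
    have hle : germ (Ideal.span (dh i '' F)) (fun j => c (i.succAbove j) / c i) ≤
        RingHom.ker (eval (0 : Fin 2 → ℂ)) := by
      unfold germ
      rw [Ideal.span_le]
      rintro f' ⟨g, hg, rfl⟩
      have hgz : eval (fun j => c (i.succAbove j) / c i) g = 0 := by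
        have : Ideal.span (dh i '' F) ≤ RingHom.ker (eval fun j => c (i.succAbove j) / c i) := by
          rw [Ideal.span_le]
          rintro _ ⟨f, hf, rfl⟩
          show eval _ (dh i f) = 0
          rw [eval_dh_div (hF f hf) i hi, hz f hf, mul_zero]
        exact this hg
      show eval 0 (aeval _ g) = 0
      rw [← hgz, ← MvPolynomial.coe_aeval_eq_eval, ← MvPolynomial.coe_aeval_eq_eval,
        RingHom.coe_coe, RingHom.coe_coe, ← AlgHom.comp_apply, MvPolynomial.comp_aeval]
      congr 1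
      congr 1
      funext j
      simp
    exact hle hf

theorem tameAt_of_classT {χ : K0 →+* ℤ} (hχ : IsEulerCharF χ) {s₀ : ℚ} {N : ℕ}
    {I : Ideal (MvPolynomial (Fin N) ℂ)} (h : ClassT χ s₀ I) : TameAt χ s₀ I := by
  induction h with
  | two s₀ G hG h0 => exact TameAt.two s₀ G hG h0
  | lin s₀ P hP h0 h1 => exact TameAt.lin s₀ P hP h0 h1
  | three s₀ F d hd hF h0 hs =>
    refine TameAt.cone s₀ F d hd hF h0 (fun c hc hz => tameAt_germ_three s₀ F d hF h0 c hc hz) ?_
    intro h1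
    rcases hs (by rw [h1]; norm_num) with h2 | h2 | h2
    · exact Or.inl h2
    · exact Or.inr (Or.inl (exists_fibre_of_proj hχ hd F hF h2))
    · exact Or.inr (Or.inr (Or.inl h2))
  | pull s₀ I G h hG ih => exact TameAt.pull s₀ I G h ih
  | adj s₀ I h ih => exact TameAt.adj s₀ I ih
  | pow s₀ I k hk h ih => exact TameAt.pow s₀ I k hk ih
  | box s₀ I J hI hJ ihI ihJ => exact TameAt.box s₀ I J ihI ihJ
  | @cone s₀ N F d hd hF h0 hloc hs ih =>
    refine TameAt.cone s₀ F d hd hF h0 ?_ ?_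
    · intro c hc hz
      have h1 : ∃ i, c i ≠ 0 := by
        by_contra h
        push Not at h
        exact hc (funext h)
      obtain ⟨i, hi⟩ := h1
      refine TameAt.dehom s₀ F d hF i c hi (ih i _ fun f hf => ?_)
      rw [eval_dh_div (hF f hf) i hi, hz f hf, mul_zero]
    · intro h1
      rcases hs h1 with h2 | h2 | h2 | h2 | h2
      · exact Or.inl h2
      · exact Or.inr (Or.inl (exists_fibre_of_proj hχ hd F hF h2))
      · exact Or.inr (Or.inl h2)
      · exact Or.inr (Or.inr (Or.inl h2))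
      · exact Or.inr (Or.inr (Or.inr h2))

theorem tameX_of_classTg {χ : K0 →+* ℤ} (hχ : IsEulerCharF χ) {s₀ : ℚ} {N : ℕ}
    {I : Ideal (MvPolynomial (Fin N) ℂ)} (h : ClassTg χ s₀ I) : TameX χ s₀ I := by
  induction h with
  | base s₀ I h => exact TameX.base s₀ I (tameAt_of_classT hχ h)
  | gen s₀ f s hs h ih => exact TameX.gen s₀ f s hs ih
  | pull s₀ I G h hG ih => exact TameX.pull s₀ I G h ih
  | adj s₀ I h ih => exact TameX.adj s₀ I ih
  | pow s₀ I k hk h ih => exact TameX.pow s₀ I k hk ih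
  | box s₀ I J hI hJ ihI ihJ => exact TameX.box s₀ I J ihI ihJ

theorem main {N : ℕ} (χ : K0 →+* ℤ) (hχ : IsEulerCharF χ) (s₀ : ℚ)
    (I : Ideal (MvPolynomial (Fin N) ℂ)) (hI : ClassTg χ s₀ I)
    (hpole : IsPole (Zmot I) s₀) (ε : ℝ) (hε : 0 < ε) :
    ∃ p : Fin N → ℂ, ‖p‖ < ε ∧ (∀ f ∈ I, eval p f = 0) ∧
      ∃ y : ConePoint I p, y.Nonzero ∧
        ∃ Z, IsZeta (fun d => χ (cls (contactArcs I p y d))) Z ∧
          ZeroOrPole Z (Complex.exp (2 * Real.pi * Complex.I * s₀)) :=
  HY.tameX_main hχ I s₀ (tameX_of_classTg hχ hI) hpole ε hε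

end HZ
end MotMono
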